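import Pool.Agent.W203.SP.Stm

set_option autoImplicit false

/-! SP-CR. -/

namespace Pool.Agent.W885.SP

open Complex Pool.Agent.W203.SP

theorem t_CR : S_CR := by
  refine ⟨?_, ?_⟩
  · unfold cr
    exact (measurable_const.div (measurable_const.mul Complex.measurable_ofReal)).pow_const _
  · intro r hr
    have h1 : (cr r) ^ 2 = 1 / (2 * I * r) := by
      unfold cr
      have h := Complex.cpow_nat_inv_pow (1 / (2 * I * (r : ℂ))) (n := 2) two_ne_zero
      have e : ((2 : ℕ) : ℂ)⁻¹ = 1 / 2 := by norm_num
      rw [e] at h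
      exact h
    rw [← norm_pow, h1, norm_div, norm_one, norm_mul, norm_mul, Complex.norm_I, Complex.norm_real,
      Real.norm_eq_abs]
    norm_num

end Pool.Agent.W885.SP
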